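import Mathlib

/-! Auxiliary lemmas on finite groups: averaging of cocycles, a transfer bound, a counting lemma. -/

set_option autoImplicit false
set_option linter.unusedVariables false

namespace Pool.Agent.H80.AutAb

open Subgroup
open scoped IsMulCommutative

/-- powers by numbers prime to the order can be inverted -/
theorem exists_pow_eq {A : Type*} [Group A] [Finite A] {k : ℕ} (h : (Nat.card A).Coprime k) :
    ∃ j : ℕ, ∀ a : A, a ^ (k * j) = a := by
  have : Nonempty A := ⟨1⟩
  by_cases h1 : Nat.card A = 1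
  · refine ⟨0, fun a => ?_⟩
    have := (Nat.card_eq_one_iff_unique.1 h1).1
    exact Subsingleton.elim _ _
  · have hlt : 1 < Nat.card A := by
      have := Nat.card_pos (α := A)
      omega
    obtain ⟨j, hj⟩ := Nat.exists_mul_mod_eq_one_of_coprime h.symm hlt
    refine ⟨j, fun a => ?_⟩
    rw [← pow_mod_natCard, hj.2, pow_one]

/-- a cocycle into an abelian group of order prime to the index of a subgroup on which it is
trivial is a coboundary -/
theorem cocycle {N A : Type*} [Group N] [Finite N] [CommGroup A] [Finite A] (P : Subgroup N)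
    (act : N → A →* A) (f : N → A) (hf : ∀ x h, f (x * h) = act h (f x) * f h)
    (hP : ∀ x ∈ P, f x = 1) (hco : (Nat.card A).Coprime P.index) :
    ∃ b : A, ∀ h, f h = b * (act h b)⁻¹ := by
  classical
  have : Fintype (N ⧸ P) := Fintype.ofFinite _
  let φ : N ⧸ P → A := Quotient.lift (fun g : N => f g⁻¹) (by
    intro a b hab
    have hab' : a⁻¹ * b ∈ P := by rwa [← QuotientGroup.leftRel_apply]
    have e : a⁻¹ = (a⁻¹ * b) * b⁻¹ := by group
    change f a⁻¹ = f b⁻¹
    rw [e, hf, hP _ hab', map_one, one_mul])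
  have hφ : ∀ g : N, φ (QuotientGroup.mk g) = f g⁻¹ := fun g => rfl
  have hsmul : ∀ (h : N) (q : N ⧸ P), φ (h⁻¹ • q) = act h (φ q) * f h := by
    intro h q
    induction q using QuotientGroup.induction_on with
    | H g =>
      change φ (QuotientGroup.mk (h⁻¹ * g)) = _
      rw [hφ, hφ]
      have e : (h⁻¹ * g)⁻¹ = g⁻¹ * h := by group
      rw [e, hf]
  obtain ⟨j, hj⟩ := exists_pow_eq hco
  refine ⟨(∏ q, φ q) ^ j, fun h => ?_⟩
  have h1 : ∏ q, φ q = act h (∏ q, φ q) * (f h) ^ P.index := by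
    calc ∏ q, φ q = ∏ q, φ (h⁻¹ • q) :=
          (Fintype.prod_equiv (MulAction.toPerm (h⁻¹ : N)) _ _ (fun q => rfl)).symm
      _ = ∏ q, act h (φ q) * f h := Finset.prod_congr rfl (fun q _ => hsmul h q)
      _ = _ := by
        rw [Finset.prod_mul_distrib, map_prod, Finset.prod_const, Finset.card_univ,
          ← Nat.card_eq_fintype_card]
        rfl
  have h2 : (f h) ^ P.index = (∏ q, φ q) * (act h (∏ q, φ q))⁻¹ := by
    rw [eq_mul_inv_iff_mul_eq, mul_comm]
    exact h1.symm
  rw [← hj (f h), pow_mul, h2, mul_pow, map_pow, inv_pow]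

/-- the transfer bound -/
theorem transfer_bound {H : Type*} [Group H] [Finite H] {p r : ℕ} [Fact p.Prime] [Fact r.Prime]
    (hpr : r ≠ p) (P : Sylow p H) [IsMulCommutative (P : Subgroup H)] (R : Sylow r H)
    (X : Subgroup H) (hXP : X ≤ P)
    (hX : ∀ x ∈ X, ∀ n ∈ normalizer (P : Set H), n⁻¹ * x * n = x) :
    Nat.card X ∣ Nat.card (normalizer (R : Set H)) := by
  classical
  let V : H →* (P : Subgroup H) := MonoidHom.transfer (MonoidHom.id (P : Subgroup H))
  -- the transfer on X
  have key : ∀ x ∈ X, ∀ (k : ℕ) (g₀ : H), g₀⁻¹ * x ^ k * g₀ ∈ (P : Subgroup H) →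
      g₀⁻¹ * x ^ k * g₀ = x ^ k := by
    intro x hx k g₀ h
    have hxk : x ^ k ∈ X := X.pow_mem hx k
    obtain ⟨n, hn, he⟩ := P.conj_eq_normalizer_conj_of_mem (x ^ k) g₀ (hXP hxk) h
    rw [he]
    exact hX _ hxk n hn
  have hV : ∀ x (hx : x ∈ X), (V x : H) = x ^ (P : Subgroup H).index := by
    intro x hx
    have := MonoidHom.transfer_eq_pow (MonoidHom.id (P : Subgroup H)) x (key x hx)
    rw [this]
    rfl
  have hcop : (Nat.card X).Coprime (P : Subgroup H).index := by
    have h1 : Nat.card X ∣ Nat.card P := Subgroup.card_dvd_of_le hXP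
    exact Nat.Coprime.coprime_dvd_left h1 P.card_coprime_index
  obtain ⟨j, hj⟩ := exists_pow_eq (A := X) hcop
  have hinj : Function.Injective (V.comp X.subtype) := by
    rw [injective_iff_map_eq_one]
    intro x hx
    have h1 : (x : H) ^ (P : Subgroup H).index = 1 := by
      rw [← hV x x.2]
      have : V (x : H) = 1 := hx
      rw [this]; rfl
    have h2 : x ^ (P : Subgroup H).index = 1 := Subtype.ext h1
    rw [← hj x, pow_mul, h2, one_pow]
  -- the image of the transfer
  have hRker : (R : Subgroup H) ≤ V.ker := by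
    intro x hx
    rw [MonoidHom.mem_ker]
    obtain ⟨a, ha⟩ := R.isPGroup' ⟨x, hx⟩
    obtain ⟨b, hb⟩ := P.isPGroup' (V x)
    have ha' : x ^ r ^ a = 1 := congrArg Subtype.val ha
    have h1 : orderOf (V x) ∣ r ^ a := by
      apply orderOf_dvd_of_pow_eq_one
      rw [← map_pow, ha', map_one]
    have h2 : orderOf (V x) ∣ p ^ b := orderOf_dvd_of_pow_eq_one hb
    have h3 : Nat.Coprime (r ^ a) (p ^ b) := by
      apply Nat.Coprime.pow
      rw [Nat.coprime_primes Fact.out Fact.out]
      exact hpr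
    have h4 := Nat.eq_one_of_dvd_coprimes h3 h1 h2
    exact orderOf_eq_one_iff.1 h4
  have hsup : normalizer (R : Set H) ⊔ V.ker = ⊤ := Sylow.normalizer_sup_eq_top' R hRker
  have hrange : (V.comp (normalizer (R : Set H)).subtype).range = V.range := by
    apply le_antisymm
    · rintro _ ⟨x, rfl⟩
      exact ⟨x, rfl⟩
    · rintro _ ⟨x, rfl⟩
      have hx : x ∈ normalizer (R : Set H) ⊔ V.ker := by rw [hsup]; exact mem_top x
      rw [Subgroup.mem_sup_of_normal_right] at hx
      obtain ⟨y, hy, z, hz, rfl⟩ := hx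
      refine ⟨⟨y, hy⟩, ?_⟩
      rw [map_mul, MonoidHom.mem_ker.1 hz, mul_one]
      rfl
  have h1 : Nat.card X ∣ Nat.card V.range := by
    have h2 : Nat.card X = Nat.card (V.comp X.subtype).range :=
      Nat.card_congr (MonoidHom.ofInjective hinj).toEquiv
    rw [h2]
    apply Subgroup.card_dvd_of_le
    rintro _ ⟨x, rfl⟩
    exact ⟨x, rfl⟩
  refine h1.trans ?_
  rw [← hrange]
  exact Subgroup.card_range_dvd _

/-- counting for a subgroup `T` with `C = T * ι A` -/
theorem card_cover {C A : Type*} [Group C] [Finite C] [Group A] [Finite A] (ι : A →* C)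
    (hι : ∀ a c, ι a * c = c * ι a) (T : Subgroup C)
    (hT : ∀ c, ∃ t ∈ T, ∃ a, c = t * ι a) :
    Nat.card C * Nat.card (T.comap ι) = Nat.card T * Nat.card A := by
  let μ : T × A →* C := MonoidHom.noncommCoprod T.subtype ι (fun t a => (hι a t).symm)
  have hμ : ∀ x, μ x = x.1 * ι x.2 := fun x => rfl
  have hsurj : Function.Surjective μ := by
    intro c
    obtain ⟨t, ht, a, rfl⟩ := hT c
    exact ⟨(⟨t, ht⟩, a), rfl⟩
  have h1 : Nat.card (T × A) = Nat.card C * Nat.card μ.ker := by
    have := μ.ker.card_mul_index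
    rw [index_ker, MonoidHom.range_eq_top.2 hsurj] at this
    rw [← this, mul_comm]
    congr 1
    exact Nat.card_congr Subgroup.topEquiv.toEquiv
  have h2 : Nat.card μ.ker = Nat.card (T.comap ι) := by
    refine Nat.card_congr ⟨fun x => ⟨x.1.2, ?_⟩, fun a => ⟨(⟨(ι a)⁻¹, ?_⟩, a), ?_⟩, ?_, ?_⟩
    · have hx : (x.1.1 : C) * ι x.1.2 = 1 := x.2
      rw [Subgroup.mem_comap, eq_inv_of_mul_eq_one_right hx]
      exact T.inv_mem x.1.1.2
    · exact T.inv_mem a.2
    · rw [MonoidHom.mem_ker, hμ]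
      simp
    · rintro ⟨⟨t, a⟩, hx⟩
      have hx' : (t : C) * ι a = 1 := hx
      apply Subtype.ext
      refine Prod.ext (Subtype.ext ?_) rfl
      exact (eq_inv_of_mul_eq_one_left hx').symm
    · intro a
      rfl
  rw [← h2, ← h1, Nat.card_prod]

/-- counting for the elements of `D` in `W * ι A` -/
theorem card_inter {C A : Type*} [Group C] [Finite C] [Group A] [Finite A] (ι : A →* C)
    (hι : ∀ a c, ι a * c = c * ι a) (D W : Subgroup C)
    (hD : ∀ c, ∃ t ∈ D, ∃ a, c = t * ι a) (V : Subgroup A)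
    (hV : ∀ a, (∃ w ∈ W, w * ι a ∈ D) → a ∈ V) :
    Nat.card W * Nat.card (D.comap ι) ≤ Nat.card V * Nat.card (D ⊓ W : Subgroup C) := by
  classical
  -- the set of pairs
  let μ : W × A →* C := MonoidHom.noncommCoprod W.subtype ι (fun t a => (hι a t).symm)
  have hμ : ∀ x, μ x = x.1 * ι x.2 := fun x => rfl
  let B : Subgroup (W × A) := D.comap μ
  let π₁ : B →* W := (MonoidHom.fst W A).comp B.subtype
  let π₂ : B →* A := (MonoidHom.snd W A).comp B.subtype
  have h1 : Nat.card B = Nat.card W * Nat.card (D.comap ι) := by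
    have hs : Function.Surjective π₁ := by
      intro w
      obtain ⟨t, ht, a, h⟩ := hD w
      refine ⟨⟨(w, a⁻¹), ?_⟩, rfl⟩
      change μ (w, a⁻¹) ∈ D
      rw [hμ]
      simp only [map_inv]
      rw [h, mul_inv_cancel_right]
      exact ht
    have := π₁.ker.card_mul_index
    rw [index_ker, MonoidHom.range_eq_top.2 hs] at this
    rw [← this, mul_comm, Nat.card_congr (Subgroup.topEquiv (G := W)).toEquiv]
    congr 1
    refine Nat.card_congr ⟨fun x => ⟨x.1.1.2, ?_⟩, fun a => ⟨⟨(1, a), ?_⟩, ?_⟩, ?_, ?_⟩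
    · have hx : x.1.1.1 = 1 := x.2
      have hx2 : (x.1.1.1 : C) * ι x.1.1.2 ∈ D := x.1.2
      rw [hx] at hx2
      rw [Subgroup.mem_comap]
      simpa using hx2
    · change ((1 : W) : C) * ι a ∈ D
      have := Subgroup.mem_comap.1 a.2
      rw [OneMemClass.coe_one, one_mul]
      exact this
    · rfl
    · rintro ⟨⟨⟨w, a⟩, hx⟩, hx2⟩
      have : w = 1 := hx2
      subst this
      rfl
    · intro a
      rfl
  have h2 : Nat.card B ≤ Nat.card V * Nat.card (D ⊓ W : Subgroup C) := by
    have := π₂.ker.card_mul_index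
    rw [index_ker] at this
    rw [← this, mul_comm]
    apply Nat.mul_le_mul
    · refine Nat.le_of_dvd Nat.card_pos (Subgroup.card_dvd_of_le ?_)
      rintro _ ⟨x, rfl⟩
      exact hV _ ⟨x.1.1, x.1.1.2, x.2⟩
    · refine Nat.card_le_card_of_injective
        (fun x : π₂.ker => (⟨(x.1.1.1 : C), ?_, x.1.1.1.2⟩ : (D ⊓ W : Subgroup C))) ?_
      · have hx : x.1.1.2 = 1 := x.2
        have hx2 : (x.1.1.1 : C) * ι x.1.1.2 ∈ D := x.1.2
        rw [hx, map_one, mul_one] at hx2
        exact hx2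
      · rintro ⟨⟨⟨w, a⟩, hx⟩, hx2⟩ ⟨⟨⟨w', a'⟩, hx'⟩, hx2'⟩ h
        have e1 : a = 1 := hx2
        have e2 : a' = 1 := hx2'
        have e3 : w = w' := Subtype.ext
          (congrArg (fun z : (D ⊓ W : Subgroup C) => (z : C)) h)
        subst e1 e2 e3
        rfl
  rw [← h1]
  exact h2

/-- the index inequality -/
theorem index_bound {C A : Type*} [Group C] [Finite C] [Group A] [Finite A] (ι : A →* C)
    (hι : ∀ a c, ι a * c = c * ι a) (D T W : Subgroup C)
    (hT : ∀ c, ∃ t ∈ T, ∃ a, c = t * ι a)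
    (hD : ∀ c, ∃ t ∈ D, ∃ a, c = t * ι a) (V : Subgroup A)
    (hV : ∀ a, (∃ w ∈ W, w * ι a ∈ D) → a ∈ V) (hVT : Nat.card V ≤ Nat.card (T.comap ι)) :
    Nat.card D * Nat.card W ≤ Nat.card T * Nat.card (D ⊓ W : Subgroup C) := by
  have h1 := card_cover ι hι T hT
  have h2 := card_cover ι hι D hD
  have h3 := card_inter ι hι D W hD V hV
  have hA : 0 < Nat.card A := Nat.card_pos
  have hC : 0 < Nat.card C := Nat.card_pos
  have hDs : 0 < Nat.card (D.comap ι) := Nat.card_pos
  have hTs : 0 < Nat.card (T.comap ι) := Nat.card_pos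
  generalize Nat.card C = c at *
  generalize Nat.card (T.comap ι) = ts at *
  generalize Nat.card (D.comap ι) = ds at *
  generalize Nat.card A = a at *
  generalize Nat.card T = t at *
  generalize Nat.card D = d at *
  generalize Nat.card W = w at *
  generalize Nat.card V = v at *
  generalize Nat.card (D ⊓ W : Subgroup C) = x at *
  -- c ts = t a, c ds = d a, w ds ≤ v x, v ≤ ts
  have h4 : d * ts = t * ds := by
    apply Nat.eq_of_mul_eq_mul_left (Nat.mul_pos hC hA)
    calc c * a * (d * ts) = (c * ts) * (d * a) := by ring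
      _ = (t * a) * (c * ds) := by rw [h1, h2]
      _ = c * a * (t * ds) := by ring
  apply Nat.le_of_mul_le_mul_left _ (Nat.mul_pos hTs hDs)
  calc ts * ds * (d * w) = (d * ts) * (w * ds) := by ring
    _ ≤ (t * ds) * (v * x) := by rw [h4]; exact Nat.mul_le_mul_left _ h3
    _ ≤ (t * ds) * (ts * x) := Nat.mul_le_mul_left _ (Nat.mul_le_mul_right _ hVT)
    _ = ts * ds * (t * x) := by ring

end Pool.Agent.H80.AutAb
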