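import Pool.Agent.H80.AutAb.Basic

/-! Choice of Sylow subgroups for other primes which are well placed with respect to a `p`-group
of automorphisms. -/

set_option autoImplicit false
set_option linter.unusedVariables false

namespace Pool.Agent.H80.AutAb

open Subgroup
open scoped Pointwise

/-- an orbit whose size is not divisible by too high a power of `p` -/
theorem exists_orbit {S X : Type*} [Group S] [Finite S] [Finite X] [MulAction S X] (m : ℕ)
    (h : ¬ m ∣ Nat.card X) : ∃ x : X, ¬ m ∣ (MulAction.orbit S x).ncard := by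
  classical
  by_contra hc
  push Not at hc
  apply h
  have : Fintype (MulAction.orbitRel.Quotient S X) := Fintype.ofFinite _
  rw [Nat.card_congr (MulAction.selfEquivSigmaOrbits S X), Nat.card_sigma]
  exact Finset.dvd_sum (fun ω _ => hc _)

theorem choose_sylow {G S : Type*} [Group G] [Finite G] [Group S] [Finite S] {p r : ℕ}
    [hp : Fact p.Prime] [hr : Fact r.Prime] (P : Sylow p G) (hS : IsPGroup p S)
    (φ : S →* MulAut G) (ι : (P : Subgroup G) →* S) (hι : ∀ a, φ (ι a) = MulAut.conj (a : G)) :
    ∃ R : Sylow r G, (∀ s, ∃ a, φ s • R = φ (ι a) • R) ∧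
      p ^ (Nat.card (normalizer (R : Set G))).factorization p =
        Nat.card ((normalizer (R : Set G)).subgroupOf P) := by
  classical
  letI : MulAction S (Sylow r G) := MulAction.compHom _ φ
  have hsm : ∀ (s : S) (R : Sylow r G), s • R = φ s • R := fun _ _ => rfl
  have hΩ : Nat.card (Sylow r G) ≠ 0 := Nat.card_pos.ne'
  have hnd : ¬ p ^ ((Nat.card (Sylow r G)).factorization p + 1) ∣ Nat.card (Sylow r G) := by
    rw [hp.out.pow_dvd_iff_le_factorization hΩ]
    omega
  obtain ⟨R, hR⟩ := exists_orbit (S := S) _ hnd
  -- the size of the orbit of `S`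
  have h1 : (MulAction.stabilizer S R).index = (MulAction.orbit S R).ncard :=
    MulAction.index_stabilizer S R
  obtain ⟨i, hi⟩ := hS.index (MulAction.stabilizer S R)
  rw [h1] at hi
  have hik : i ≤ (Nat.card (Sylow r G)).factorization p := by
    rw [hi] at hR
    by_contra hc
    exact hR (pow_dvd_pow p (by omega))
  -- the orbit of `P`
  have hΩcard : Nat.card G = Nat.card (Sylow r G) * Nat.card (normalizer (R : Set G)) := by
    rw [R.card_eq_index_normalizer, mul_comm]
    exact (card_mul_index _).symm
  have hfac : (Nat.card G).factorization p = (Nat.card (Sylow r G)).factorization p +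
      (Nat.card (normalizer (R : Set G))).factorization p := by
    rw [hΩcard, Nat.factorization_mul hΩ Nat.card_pos.ne', Finsupp.add_apply]
  have hPcard : Nat.card (P : Subgroup G) = p ^ (Nat.card G).factorization p :=
    P.card_eq_multiplicity
  obtain ⟨n, hn⟩ := (IsPGroup.iff_card).1
    (P.isPGroup'.to_subgroup ((normalizer (R : Set G)).subgroupOf P))
  have hnle : n ≤ (Nat.card (normalizer (R : Set G))).factorization p := by
    rw [← hp.out.pow_dvd_iff_le_factorization Nat.card_pos.ne', ← hn]
    have h2 : Nat.card ((normalizer (R : Set G)).subgroupOf P) =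
        Nat.card (((normalizer (R : Set G)).subgroupOf P).map (P : Subgroup G).subtype) :=
      Nat.card_congr (equivMapOfInjective _ _ (P : Subgroup G).subtype_injective).toEquiv
    rw [h2]
    apply Subgroup.card_dvd_of_le
    rintro _ ⟨x, hx, rfl⟩
    exact hx
  -- the set of `P`-conjugates
  let O : Set (Sylow r G) := Set.range (fun a : (P : Subgroup G) => φ (ι a) • R)
  have hOcard : O.ncard * Nat.card ((normalizer (R : Set G)).subgroupOf P) =
      Nat.card (P : Subgroup G) := by
    letI act : MulAction (P : Subgroup G) (Sylow r G) := MulAction.compHom _ (φ.comp ι)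
    have e1 : MulAction.stabilizer (P : Subgroup G) R = (normalizer (R : Set G)).subgroupOf P := by
      ext a
      rw [MulAction.mem_stabilizer_iff, mem_subgroupOf, ← Sylow.smul_eq_iff_mem_normalizer,
        Sylow.smul_def, ← hι]
      rfl
    have e2 : O = MulAction.orbit (P : Subgroup G) R := rfl
    rw [e2, ← MulAction.index_stabilizer, e1, mul_comm]
    exact card_mul_index _
  have hOsub : O ⊆ MulAction.orbit S R := by
    rintro _ ⟨a, rfl⟩
    exact ⟨ι a, rfl⟩
  have hOle : O.ncard ≤ (MulAction.orbit S R).ncard :=
    Set.ncard_le_ncard hOsub (Set.toFinite _)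
  have hOpow : O.ncard * p ^ n = p ^ ((Nat.card (Sylow r G)).factorization p +
      (Nat.card (normalizer (R : Set G))).factorization p) := by
    rw [← hn, hOcard, hPcard, hfac]
  have hge : p ^ (Nat.card (Sylow r G)).factorization p ≤ O.ncard := by
    by_contra hc
    push Not at hc
    have h3 : O.ncard * p ^ n < p ^ (Nat.card (Sylow r G)).factorization p *
        p ^ (Nat.card (normalizer (R : Set G))).factorization p :=
      lt_of_lt_of_le (Nat.mul_lt_mul_of_pos_right hc (pow_pos hp.out.pos n))
        (Nat.mul_le_mul_left _ (Nat.pow_le_pow_right hp.out.pos hnle))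
    rw [← pow_add, ← hOpow] at h3
    exact lt_irrefl _ h3
  have hle2 : (MulAction.orbit S R).ncard ≤ p ^ (Nat.card (Sylow r G)).factorization p := by
    rw [hi]
    exact Nat.pow_le_pow_right hp.out.pos hik
  have hOeq : O = MulAction.orbit S R :=
    Set.eq_of_subset_of_ncard_le hOsub (hle2.trans hge) (Set.toFinite _)
  refine ⟨R, fun s => ?_, ?_⟩
  · have : s • R ∈ O := by rw [hOeq]; exact ⟨s, rfl⟩
    obtain ⟨a, ha⟩ := this
    exact ⟨a, ha.symm⟩
  · have hOk : O.ncard = p ^ (Nat.card (Sylow r G)).factorization p :=
      le_antisymm (hOle.trans hle2) hge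
    rw [hOk, pow_add] at hOpow
    rw [hn]
    exact (Nat.eq_of_mul_eq_mul_left (pow_pos hp.out.pos _) hOpow).symm

end Pool.Agent.H80.AutAb
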