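import Pool.Agent.H80.AutAb.Final

/-! Automorphisms of `p`-constrained groups centralising a Sylow `p`-subgroup. -/

set_option autoImplicit false
set_option linter.unusedVariables false

namespace Pool.Agent.H80.AutAb

open Subgroup
open scoped IsMulCommutative

/-- An automorphism which fixes a Sylow `p`-subgroup pointwise is inner, if there is a normal
`p`-subgroup containing its centralizer. -/
theorem inner_of_constrained {K : Type*} [Group K] [Finite K] {p : ℕ} [hp : Fact p.Prime]
    (R : Subgroup K) [hRn : R.Normal] (hR : IsPGroup p R) (hC : centralizer (R : Set K) ≤ R)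
    (α : MulAut K) (Q : Sylow p K) (hα : ∀ x ∈ Q, α x = x) : ∃ g : K, α = MulAut.conj g := by
  classical
  have hRQ : R ≤ Q := by
    have h1 : IsPGroup p ((Q : Subgroup K) ⊔ R : Subgroup K) :=
      Q.isPGroup'.to_sup_of_normal_right hR
    have h2 : (Q : Subgroup K) ⊔ R = (Q : Subgroup K) := Q.is_maximal' h1 le_sup_left
    rw [← h2]
    exact le_sup_right
  let A : Subgroup K := centralizer (R : Set K)
  have hAc : IsMulCommutative A := ⟨⟨fun a b => Subtype.ext
    (mem_centralizer_iff.1 b.2 a (hC a.2))⟩⟩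
  have hAn : ∀ (h : K) (x : A), h⁻¹ * x * h ∈ A := by
    intro h x
    apply mem_centralizer_iff.2
    intro y hy
    have h1 := mem_centralizer_iff.1 x.2 (h * y * h⁻¹) (hRn.conj_mem y hy h)
    calc y * (h⁻¹ * x * h) = h⁻¹ * (h * y * h⁻¹ * x) * h := by group
      _ = h⁻¹ * (x * (h * y * h⁻¹)) * h := by rw [h1]
      _ = h⁻¹ * x * h * y := by group
  have hu : ∀ g : K, g⁻¹ * α g ∈ A := by
    intro g
    apply mem_centralizer_iff.2
    intro x hx
    have h2 : α g * x * (α g)⁻¹ = g * x * g⁻¹ := by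
      rw [← hα _ (hRQ (hRn.conj_mem x hx g)), map_mul, map_mul, map_inv, hα x (hRQ hx)]
    have h3 : α g * x = g * x * g⁻¹ * α g := by rw [← h2]; group
    rw [mul_assoc, h3]
    group
  let act : K → A →* A := fun n =>
    { toFun := fun x => ⟨n⁻¹ * x * n, hAn n x⟩
      map_one' := by
        apply Subtype.ext
        change n⁻¹ * 1 * n = 1
        group
      map_mul' := fun x y => by
        apply Subtype.ext
        change n⁻¹ * (x * y) * n = n⁻¹ * x * n * (n⁻¹ * y * n)
        group }
  let f : K → A := fun n => ⟨n⁻¹ * α n, hu n⟩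
  have hf : ∀ x h, f (x * h) = act h (f x) * f h := by
    intro x h
    apply Subtype.ext
    change (x * h)⁻¹ * α (x * h) = h⁻¹ * (x⁻¹ * α x) * h * (h⁻¹ * α h)
    rw [map_mul]
    group
  have hP1 : ∀ x ∈ (Q : Subgroup K), f x = 1 := by
    intro x hx
    apply Subtype.ext
    change x⁻¹ * α x = 1
    rw [hα x hx, inv_mul_cancel]
  have hco : (Nat.card A).Coprime (Q : Subgroup K).index := by
    apply Nat.Coprime.coprime_dvd_left _ Q.card_coprime_index
    exact Subgroup.card_dvd_of_le (hC.trans hRQ)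
  obtain ⟨b, hb⟩ := cocycle (Q : Subgroup K) act f hf hP1 hco
  refine ⟨(b : K)⁻¹, ?_⟩
  ext h
  have h1 := congrArg (fun z : A => (z : K)) (hb h)
  have h2 : h⁻¹ * α h = b * (h⁻¹ * b * h)⁻¹ := h1
  have h3 : (b : K) * (h⁻¹ * b * h)⁻¹ = (h⁻¹ * b * h)⁻¹ * b := by
    have := congrArg (fun z : A => (z : K)) (mul_comm b (act h b)⁻¹)
    exact this
  rw [MulAut.conj_apply, inv_inv]
  rw [h3] at h2
  have h4 : α h = h * ((h⁻¹ * b * h)⁻¹ * b) := by rw [← h2]; group
  rw [h4]
  group

end Pool.Agent.H80.AutAb
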