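import Pool.Agent.H80.AutAb.Main

/-! The `p`-part of the order of the automorphism group of a finite group with abelian
Sylow `p`-subgroups. -/

set_option autoImplicit false
set_option linter.unusedVariables false

namespace Pool.Agent.H80.AutAb

open Subgroup
open scoped Pointwise IsMulCommutative

theorem card_conj_dvd {G : Type*} [Group G] [Finite G] :
    Nat.card (MulAut.conj : G →* MulAut G).range ∣ Nat.card (G ⧸ Subgroup.center G) := by
  rw [← index_ker]
  change _ ∣ (Subgroup.center G).index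
  apply index_dvd_of_le
  intro z hz
  rw [MonoidHom.mem_ker]
  ext x
  rw [MulAut.conj_apply, MulAut.one_apply, ← mem_center_iff.1 hz x, mul_inv_cancel_right]

section

variable {G S : Type*} [Group G] [Finite G] [Group S] [Finite S] {p : ℕ} [hp : Fact p.Prime]
  (P : Sylow p G) (φ : S →* MulAut G) [hPc : IsMulCommutative (P : Subgroup G)]
  (ι : (P : Subgroup G) →* S) (hι : ∀ a, φ (ι a) = MulAut.conj (a : G))

include hι in
theorem global_bound (hφ : Function.Injective φ) (hS : IsPGroup p S)
    (hfix : ∀ s, ∀ x ∈ (P : Subgroup G), φ s x = x)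
    (P' : ∀ q ∈ (Nat.card G).primeFactors, Sylow q G) (p0 : (Nat.card G).primeFactors)
    (hp0 : (p0 : ℕ) = p) :
    Nat.card S ∣ Nat.card (G ⧸ Subgroup.center G) *
      ∏ q ∈ Finset.univ.erase p0, Nat.card (MulAut (↥(P' q.1 q.2 : Subgroup G))) := by
  classical
  have hex : ∀ q : {q // q ∈ (Finset.univ.erase p0 : Finset (Nat.card G).primeFactors)},
      ∃ R : Sylow (q.1 : ℕ) G,
      (DD P φ hfix ⊓ WW φ (R : Subgroup G)).relIndex (DD P φ hfix) ∣
        Nat.card (MulAut (↥(P' q.1.1 q.1.2 : Subgroup G))) := by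
    rintro ⟨q, hq⟩
    have hqp : Fact (q : ℕ).Prime := ⟨Nat.prime_of_mem_primeFactors q.2⟩
    have hne : (q : ℕ) ≠ p := by
      intro h
      apply (Finset.mem_erase.1 hq).1
      exact Subtype.ext (h.trans hp0.symm)
    obtain ⟨R, hR⟩ := local_bound P φ ι hι hφ hS hfix hne
    refine ⟨R, ?_⟩
    let e : (R : Subgroup G) ≃* (P' q.1 q.2 : Subgroup G) := Sylow.equiv _ _
    rwa [Nat.card_congr (MulAut.congr e).toEquiv] at hR
  choose R hR using hex
  let D := DD P φ hfix
  let f : {q // q ∈ (Finset.univ.erase p0 : Finset (Nat.card G).primeFactors)} → Subgroup D := fun q =>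
    (D ⊓ WW φ (R q : Subgroup G)).subgroupOf D
  have hinf : (⨅ q, f q) = ⊥ := by
    rw [eq_bot_iff]
    intro s hs
    rw [Subgroup.mem_iInf] at hs
    have hsP : (P : Subgroup G) ≤ HH φ (Subgroup.zpowers (s : S)) := by
      intro x hx t _
      exact hfix t x hx
    have hsR : ∀ q, (R q : Subgroup G) ≤ HH φ (Subgroup.zpowers (s : S)) := by
      intro q x hx t ht
      have h1 : (s : S) ∈ WW φ (R q : Subgroup G) := (mem_subgroupOf.1 (hs q)).2
      exact ((Subgroup.zpowers_le.2 h1) ht) x hx
    have htop : HH φ (Subgroup.zpowers (s : S)) = ⊤ := by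
      apply Subgroup.eq_top_of_le_card
      apply Nat.le_of_dvd Nat.card_pos
      rw [← Nat.factorization_le_iff_dvd Nat.card_pos.ne' Nat.card_pos.ne']
      intro q
      by_cases hq : q ∈ (Nat.card G).primeFactors
      · have hqq : q.Prime := Nat.prime_of_mem_primeFactors hq
        have h1 : q ^ (Nat.card G).factorization q ∣
            Nat.card (HH φ (Subgroup.zpowers (s : S))) := by
          by_cases hqp : (⟨q, hq⟩ : (Nat.card G).primeFactors) = p0
          · have hqp' : q = p := by rw [← hp0, ← hqp]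
            subst hqp'
            rw [← P.card_eq_multiplicity]
            exact Subgroup.card_dvd_of_le hsP
          · have hF : Fact q.Prime := ⟨hqq⟩
            have := (R ⟨⟨q, hq⟩, Finset.mem_erase.2 ⟨hqp, Finset.mem_univ _⟩⟩).card_eq_multiplicity
            rw [← this]
            exact Subgroup.card_dvd_of_le (hsR _)
        exact (hqq.pow_dvd_iff_le_factorization Nat.card_pos.ne').1 h1
      · have : (Nat.card G).factorization q = 0 := by
          rw [← Finsupp.notMem_support_iff]
          exact hq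
        rw [this]; exact Nat.zero_le _
    have h1 : φ (s : S) = 1 := by
      ext x
      have hx : x ∈ HH φ (Subgroup.zpowers (s : S)) := by rw [htop]; exact mem_top x
      exact hx (s : S) (Subgroup.mem_zpowers _)
    rw [Subgroup.mem_bot]
    apply Subtype.ext
    apply hφ
    rw [h1]
    exact (map_one φ).symm
  have hle : Nat.card D ≤ ∏ q, (f q).index := by
    have := Subgroup.index_iInf_le f
    rwa [hinf, Subgroup.index_bot] at this
  have hpow : ∀ q, ∃ k, (f q).index = p ^ k := fun q => (hS.to_subgroup D).index (f q)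
  choose k hk using hpow
  obtain ⟨d, hd⟩ := (IsPGroup.iff_card).1 (hS.to_subgroup D)
  have hprod : ∏ q, (f q).index = p ^ (∑ q, k q) := by
    rw [← Finset.prod_pow_eq_pow_sum]
    exact Finset.prod_congr rfl (fun q _ => hk q)
  have hDdvd : Nat.card D ∣ ∏ q ∈ Finset.univ.erase p0,
      Nat.card (MulAut (↥(P' q.1 q.2 : Subgroup G))) := by
    have h1 : Nat.card D ∣ ∏ q, (f q).index := by
      rw [hprod, hd] at hle ⊢
      exact pow_dvd_pow p ((Nat.pow_le_pow_iff_right hp.out.one_lt).1 hle)
    refine h1.trans ?_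
    have h4 : ∏ q : {q // q ∈ (Finset.univ.erase p0 : Finset (Nat.card G).primeFactors)},
        Nat.card (MulAut (↥(P' q.1.1 q.1.2 : Subgroup G))) =
        ∏ q ∈ Finset.univ.erase p0, Nat.card (MulAut (↥(P' q.1 q.2 : Subgroup G))) :=
      Finset.prod_coe_sort (Finset.univ.erase p0)
        (fun q : (Nat.card G).primeFactors => Nat.card (MulAut (↥(P' q.1 q.2 : Subgroup G))))
    rw [← h4]
    exact Finset.prod_dvd_prod_of_dvd _ _ (fun q _ => hR q)
  -- the cover
  have hcen := iota_central P φ ι hι hφ hfix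
  have h2 := card_cover ι hcen D (DD_cover P φ ι hι hfix)
  have hker : ι.ker ≤ D.comap ι := by
    intro a ha
    rw [Subgroup.mem_comap, (show ι a = 1 from ha)]
    exact D.one_mem
  obtain ⟨x, hx⟩ := Subgroup.card_dvd_of_le hker
  have hPι : Nat.card (P : Subgroup G) = Nat.card ι.ker * Nat.card ι.range := by
    rw [← index_ker]; exact (card_mul_index _).symm
  have h3 : Nat.card S * x = Nat.card D * Nat.card ι.range := by
    rw [hx, hPι] at h2
    apply Nat.eq_of_mul_eq_mul_left (Nat.card_pos (α := ι.ker))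
    calc _ = Nat.card S * (Nat.card ι.ker * x) := by ring
      _ = _ := h2
      _ = _ := by ring
  have hιr : Nat.card ι.range ∣ Nat.card (G ⧸ Subgroup.center G) := by
    refine dvd_trans ?_ card_conj_dvd
    rw [Nat.card_congr (equivMapOfInjective ι.range φ hφ).toEquiv]
    apply Subgroup.card_dvd_of_le
    rintro _ ⟨_, ⟨a, rfl⟩, rfl⟩
    exact ⟨a, (hι a).symm⟩
  calc Nat.card S ∣ Nat.card S * x := dvd_mul_right _ _
    _ = Nat.card ι.range * Nat.card D := by rw [h3, mul_comm]
    _ ∣ _ := mul_dvd_mul hιr hDdvd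

end

/-- The `p`-part of the divisibility if the Sylow `p`-subgroups are abelian. -/
theorem ppart_abelian {G : Type*} [Group G] [Finite G] (p : ℕ) [hp : Fact p.Prime]
    (hpG : p ∈ (Nat.card G).primeFactors)
    (P' : ∀ q ∈ (Nat.card G).primeFactors, Sylow q G)
    (hab : ∀ x ∈ P' p hpG, ∀ y ∈ P' p hpG, x * y = y * x)
    (Q : Subgroup (MulAut G)) (hQ : IsPGroup p Q) :
    Nat.card Q ∣ Nat.card (G ⧸ Subgroup.center G) *
      ∏ q : (Nat.card G).primeFactors, Nat.card (MulAut (↥(P' q.1 q.2 : Subgroup G))) := by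
  classical
  let φ : Q →* MulAut G := Q.subtype
  have hφ : Function.Injective φ := Q.subtype_injective
  obtain ⟨T, hT⟩ := Pool.Agent.H14.exists_invariant_sylow hQ φ p (not_dvd_card_sylow p G)
  let e : (T : Subgroup G) ≃* (P' p hpG : Subgroup G) := Sylow.equiv _ _
  have hTc : IsMulCommutative (T : Subgroup G) := by
    refine ⟨⟨fun a b => ?_⟩⟩
    apply e.injective
    rw [map_mul, map_mul]
    apply Subtype.ext
    exact hab _ (e a).2 _ (e b).2
  let ρ : Q →* MulAut (T : Subgroup G) := Pool.Agent.H14.resHom φ T hT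
  have hQC : Nat.card Q = Nat.card ρ.range * Nat.card ρ.ker := by
    rw [← index_ker, mul_comm]
    exact (ρ.ker.card_mul_index).symm
  have d1 : Nat.card ρ.range ∣ Nat.card (MulAut (↥(P' p hpG : Subgroup G))) := by
    have h1 : Nat.card ρ.range ∣ Nat.card (MulAut (T : Subgroup G)) :=
      Subgroup.card_subgroup_dvd_card _
    rwa [Nat.card_congr (MulAut.congr e).toEquiv] at h1
  have hfix : ∀ c : ρ.ker, ∀ x ∈ (T : Subgroup G), φ c x = x := by
    intro c x hx
    have h1 : ρ c = 1 := c.2
    have h2 := congrArg (fun f : MulAut (T : Subgroup G) => ((f ⟨x, hx⟩ : (T : Subgroup G)) : G)) h1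
    exact h2
  -- the enlarged group
  let C : Subgroup (MulAut G) := ρ.ker.map Q.subtype
  let I : Subgroup (MulAut G) := (T : Subgroup G).map MulAut.conj
  have hCfix : ∀ c ∈ C, ∀ x ∈ (T : Subgroup G), c x = x := by
    rintro _ ⟨c, hc, rfl⟩ x hx
    exact hfix ⟨c, hc⟩ x hx
  have hIfix : ∀ c ∈ I, ∀ x ∈ (T : Subgroup G), c x = x := by
    rintro _ ⟨a, ha, rfl⟩ x hx
    have h1 : a * x = x * a :=
      congrArg Subtype.val (hTc.is_comm.comm (⟨a, ha⟩ : (T : Subgroup G)) ⟨x, hx⟩)
    change a * x * a⁻¹ = x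
    rw [h1, mul_inv_cancel_right]
  have hCI : C ≤ normalizer (I : Set (MulAut G)) := by
    intro c hc
    apply mem_normalizer_iff.2
    have hcomm : ∀ i ∈ I, c * i * c⁻¹ = i := by
      rintro _ ⟨a, ha, rfl⟩
      ext x
      change c (a * (c⁻¹ x) * a⁻¹) = a * x * a⁻¹
      rw [map_mul, map_mul, map_inv, hCfix c hc a ha]
      congr 2
      exact c.apply_symm_apply x
    intro i
    constructor
    · intro hi
      rw [hcomm i hi]; exact hi
    · intro hi
      have h1 := hcomm _ hi
      have h2 : c * i * c⁻¹ = i := by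
        have h3 : c * (c * i * c⁻¹) * c⁻¹ = c * i * c⁻¹ := h1
        have h4 : c * i * c⁻¹ = c⁻¹ * (c * (c * i * c⁻¹) * c⁻¹) * c := by group
        rw [h3] at h4
        calc c * i * c⁻¹ = c⁻¹ * (c * i * c⁻¹) * c := h4
          _ = i := by group
      rw [h2] at hi
      exact hi
  have hIp : IsPGroup p I := T.isPGroup'.map _
  have hCp : IsPGroup p C := (hQ.to_subgroup ρ.ker).map _
  have hSp : IsPGroup p (C ⊔ I : Subgroup (MulAut G)) := hCp.to_sup_of_normal_right' hIp hCI
  have hSfix : ∀ s : (C ⊔ I : Subgroup (MulAut G)), ∀ x ∈ (T : Subgroup G),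
      (C ⊔ I : Subgroup (MulAut G)).subtype s x = x := by
    let F : Subgroup (MulAut G) :=
      { carrier := {s | ∀ x ∈ (T : Subgroup G), s x = x}
        mul_mem' := fun {a b} ha hb x hx => by
          change a (b x) = x
          rw [hb x hx, ha x hx]
        one_mem' := fun x hx => rfl
        inv_mem' := fun {a} ha x hx => by
          have h1 : a⁻¹ (a x) = x := a.symm_apply_apply x
          rwa [ha x hx] at h1 }
    have hle : C ⊔ I ≤ F := sup_le (fun c hc => hCfix c hc) (fun c hc => hIfix c hc)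
    intro s x hx
    exact hle s.2 x hx
  let ι : (T : Subgroup G) →* (C ⊔ I : Subgroup (MulAut G)) :=
    { toFun := fun a => ⟨MulAut.conj (a : G), (le_sup_right : I ≤ C ⊔ I) ⟨a, a.2, rfl⟩⟩
      map_one' := by
        apply Subtype.ext
        exact map_one MulAut.conj
      map_mul' := fun a b => by
        apply Subtype.ext
        exact map_mul MulAut.conj _ _ }
  have hmain := global_bound T (C ⊔ I : Subgroup (MulAut G)).subtype ι (fun a => rfl)
    (Subgroup.subtype_injective _) hSp hSfix P' ⟨p, hpG⟩ rfl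
  have d2 : Nat.card ρ.ker ∣ Nat.card (C ⊔ I : Subgroup (MulAut G)) := by
    rw [Nat.card_congr (equivMapOfInjective ρ.ker Q.subtype Q.subtype_injective).toEquiv]
    exact Subgroup.card_dvd_of_le le_sup_left
  rw [hQC, ← Finset.mul_prod_erase Finset.univ _
    (Finset.mem_univ (⟨p, hpG⟩ : (Nat.card G).primeFactors))]
  refine (mul_dvd_mul d1 (d2.trans hmain)).trans (dvd_of_eq ?_)
  ring

end Pool.Agent.H80.AutAb
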