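import Pool.Agent.H80.AutAb.Choose
import Pool.Agent.H14.AutRed

/-! Automorphisms of `p`-power order centralising an abelian Sylow `p`-subgroup. -/

set_option autoImplicit false
set_option linter.unusedVariables false

namespace Pool.Agent.H80.AutAb

open Subgroup
open scoped Pointwise IsMulCommutative

/-- powers by the index of a central subgroup -/
theorem pow_index_central {K : Type*} [Group K] [Finite K] (Z : Subgroup K) (hZ : Z ≤ center K) :
    (∀ g : K, g ^ Z.index ∈ Z) ∧ ∀ g h : K, (g * h) ^ Z.index = g ^ Z.index * h ^ Z.index := by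
  have hc : IsMulCommutative Z := ⟨⟨fun a b => Subtype.ext
    (mem_center_iff.1 (hZ b.2) a)⟩⟩
  let V : K →* Z := MonoidHom.transfer (MonoidHom.id Z)
  have key : ∀ (g : K) (k : ℕ) (g₀ : K), g₀⁻¹ * g ^ k * g₀ ∈ Z → g₀⁻¹ * g ^ k * g₀ = g ^ k := by
    intro g k g₀ h
    have h1 := mem_center_iff.1 (hZ h) g₀
    have h2 : g₀⁻¹ * g ^ k * g₀ * g₀ = g ^ k * g₀ := by rw [← h1]; group
    exact mul_right_cancel h2
  have hV : ∀ g, (V g : K) = g ^ Z.index := by
    intro g
    have := MonoidHom.transfer_eq_pow (MonoidHom.id Z) g (key g)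
    rw [this]
    rfl
  refine ⟨fun g => ?_, fun g h => ?_⟩
  · rw [← hV]; exact (V g).2
  · rw [← hV, ← hV, ← hV, map_mul]; rfl

section

variable {G S : Type*} [Group G] [Finite G] [Group S] [Finite S] {p : ℕ} [hp : Fact p.Prime]
  (P : Sylow p G) [hPc : IsMulCommutative (P : Subgroup G)] (φ : S →* MulAut G)

/-- index of `P` in its centralizer -/
noncomputable def mm : ℕ := (P : Subgroup G).relIndex (centralizer (P : Set G))

include hPc in
theorem pow_mm_mem {g : G} (hg : g ∈ centralizer (P : Set G)) : g ^ mm P ∈ (P : Subgroup G) := by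
  have hZ : (P : Subgroup G).subgroupOf (centralizer (P : Set G)) ≤
      center (centralizer (P : Set G)) := by
    intro x hx
    rw [mem_center_iff]
    intro g
    exact Subtype.ext (mem_centralizer_iff.1 g.2 x hx).symm
  exact (pow_index_central _ hZ).1 ⟨g, hg⟩

include hPc in
theorem mul_pow_mm {g h : G} (hg : g ∈ centralizer (P : Set G))
    (hh : h ∈ centralizer (P : Set G)) : (g * h) ^ mm P = g ^ mm P * h ^ mm P := by
  have hZ : (P : Subgroup G).subgroupOf (centralizer (P : Set G)) ≤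
      center (centralizer (P : Set G)) := by
    intro x hx
    rw [mem_center_iff]
    intro g
    exact Subtype.ext (mem_centralizer_iff.1 g.2 x hx).symm
  exact congrArg Subtype.val ((pow_index_central _ hZ).2 ⟨g, hg⟩ ⟨h, hh⟩)

include hPc in
theorem coprime_mm : (Nat.card (P : Subgroup G)).Coprime (mm P) := by
  apply Nat.Coprime.coprime_dvd_right _ P.card_coprime_index
  exact relIndex_dvd_index_of_le P.le_centralizer

omit hPc in
/-- the deviation lies in the centralizer -/
theorem dev_mem (hfix : ∀ s, ∀ x ∈ (P : Subgroup G), φ s x = x) {n : G}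
    (hn : n ∈ normalizer (P : Set G)) (s : S) : n⁻¹ * φ s n ∈ centralizer (P : Set G) := by
  rw [mem_centralizer_iff]
  intro x hx
  have h1 : n * x * n⁻¹ ∈ (P : Subgroup G) := (mem_normalizer_iff.1 hn x).1 hx
  have h2 : φ s n * x * (φ s n)⁻¹ = n * x * n⁻¹ := by
    rw [← hfix s _ h1, map_mul, map_mul, map_inv, hfix s x hx]
  have h3 : φ s n * x = n * x * n⁻¹ * φ s n := by rw [← h2]; group
  rw [mul_assoc, h3]
  group

omit hPc in
theorem cent_map (hfix : ∀ s, ∀ x ∈ (P : Subgroup G), φ s x = x) {g : G}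
    (hg : g ∈ centralizer (P : Set G)) (s : S) : φ s g ∈ centralizer (P : Set G) := by
  rw [mem_centralizer_iff] at hg ⊢
  intro x hx
  have := congrArg (φ s) (hg x hx)
  rwa [map_mul, map_mul, hfix s x hx] at this

include hPc in
theorem dev_mul (hfix : ∀ s, ∀ x ∈ (P : Subgroup G), φ s x = x) {n : G}
    (hn : n ∈ normalizer (P : Set G)) (s t : S) :
    (n⁻¹ * φ (s * t) n) ^ mm P = (n⁻¹ * φ s n) ^ mm P * (n⁻¹ * φ t n) ^ mm P := by
  have h1 : n⁻¹ * φ (s * t) n = (n⁻¹ * φ s n) * φ s (n⁻¹ * φ t n) := by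
    rw [map_mul φ, MulAut.mul_apply, map_mul (φ s), map_inv]
    group
  rw [h1, mul_pow_mm P (dev_mem P φ hfix hn s)
    (cent_map P φ hfix (dev_mem P φ hfix hn t) s), ← map_pow,
    hfix s _ (pow_mm_mem P (dev_mem P φ hfix hn t))]

/-- the subgroup of the elements with trivial deviation -/
noncomputable def DD (hfix : ∀ s, ∀ x ∈ (P : Subgroup G), φ s x = x) : Subgroup S where
  carrier := {s | ∀ n ∈ normalizer (P : Set G), (n⁻¹ * φ s n) ^ mm P = 1}
  mul_mem' := fun {a b} ha hb n hn => by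
    rw [dev_mul P φ hfix hn, ha n hn, hb n hn, one_mul]
  one_mem' := fun n hn => by simp
  inv_mem' := fun {a} ha n hn => by
    have h1 := dev_mul P φ hfix hn a a⁻¹
    rw [mul_inv_cancel, ha n hn, one_mul] at h1
    rw [← h1]
    simp

variable (ι : (P : Subgroup G) →* S) (hι : ∀ a, φ (ι a) = MulAut.conj (a : G))

include hι in
omit hPc hp in
theorem iota_central (hφ : Function.Injective φ)
    (hfix : ∀ s, ∀ x ∈ (P : Subgroup G), φ s x = x) (a : (P : Subgroup G)) (s : S) :
    ι a * s = s * ι a := by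
  apply hφ
  rw [map_mul, map_mul, hι]
  ext x
  rw [MulAut.mul_apply, MulAut.mul_apply, MulAut.conj_apply, MulAut.conj_apply, map_mul, map_mul,
    map_inv, hfix s a a.2]

include hι in
/-- every element is a product of one with trivial deviation and an inner one -/
theorem DD_cover (hfix : ∀ s, ∀ x ∈ (P : Subgroup G), φ s x = x) (s : S) :
    ∃ d ∈ DD P φ hfix, ∃ a, s = d * ι a := by
  classical
  -- the action of the normalizer
  let N := normalizer (P : Set G)
  have hconj : ∀ (n : N) (x : (P : Subgroup G)), (n : G)⁻¹ * x * n ∈ (P : Subgroup G) := by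
    intro n x
    exact (mem_normalizer_iff''.1 n.2 x).1 x.2
  let act : N → (P : Subgroup G) →* (P : Subgroup G) := fun n =>
    { toFun := fun x => ⟨(n : G)⁻¹ * x * n, hconj n x⟩
      map_one' := by
        apply Subtype.ext
        change (n : G)⁻¹ * 1 * n = 1
        group
      map_mul' := fun x y => by
        apply Subtype.ext
        change (n : G)⁻¹ * (x * y) * n = (n : G)⁻¹ * x * n * ((n : G)⁻¹ * y * n)
        group }
  let f : N → (P : Subgroup G) := fun n =>
    ⟨((n : G)⁻¹ * φ s n) ^ mm P, pow_mm_mem P (dev_mem P φ hfix n.2 s)⟩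
  have hact : ∀ n x, ((act n x : (P : Subgroup G)) : G) = (n : G)⁻¹ * x * n := fun _ _ => rfl
  have hf0 : ∀ n, ((f n : (P : Subgroup G)) : G) = ((n : G)⁻¹ * φ s n) ^ mm P := fun _ => rfl
  have hcP : ∀ {g : G}, g ∈ centralizer (P : Set G) → ∀ n : N,
      (n : G)⁻¹ * g * n ∈ centralizer (P : Set G) := by
    intro g hg n
    rw [mem_centralizer_iff] at hg ⊢
    intro x hx
    have h1 := hg ((n : G) * x * (n : G)⁻¹) ((mem_normalizer_iff.1 n.2 x).1 hx)
    calc x * ((n : G)⁻¹ * g * n) = (n : G)⁻¹ * ((n : G) * x * (n : G)⁻¹ * g) * n := by group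
      _ = (n : G)⁻¹ * (g * ((n : G) * x * (n : G)⁻¹)) * n := by rw [h1]
      _ = (n : G)⁻¹ * g * n * x := by group
  have hf : ∀ x h, f (x * h) = act h (f x) * f h := by
    intro x h
    apply Subtype.ext
    rw [Subgroup.coe_mul, hact, hf0, hf0, hf0]
    have e1 : ((x * h : N) : G)⁻¹ * φ s ((x * h : N) : G) =
        ((h : G)⁻¹ * ((x : G)⁻¹ * φ s x) * h) * ((h : G)⁻¹ * φ s h) := by
      rw [Subgroup.coe_mul, map_mul]
      group
    rw [e1, mul_pow_mm P (hcP (dev_mem P φ hfix x.2 s) h) (dev_mem P φ hfix h.2 s)]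
    congr 1
    have := conj_pow (i := mm P) (a := (h : G)⁻¹) (b := (x : G)⁻¹ * φ s x)
    rw [inv_inv] at this
    exact this
  have hP1 : ∀ x ∈ (P : Subgroup G).subgroupOf N, f x = 1 := by
    intro x hx
    apply Subtype.ext
    rw [hf0, hfix s x hx, inv_mul_cancel, one_pow]
    rfl
  have hco : (Nat.card (P : Subgroup G)).Coprime ((P : Subgroup G).subgroupOf N).index := by
    apply Nat.Coprime.coprime_dvd_right _ P.card_coprime_index
    exact relIndex_dvd_index_of_le le_normalizer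
  obtain ⟨b, hb⟩ := cocycle _ act f hf hP1 hco
  obtain ⟨j, hj⟩ := exists_pow_eq (A := (P : Subgroup G)) (coprime_mm P)
  have hbj : (b ^ j) ^ mm P = b := by
    rw [← pow_mul, mul_comm]; exact hj b
  -- `s * ι (b ^ j)` has trivial deviation
  refine ⟨s * ι (b ^ j), ?_, (b ^ j)⁻¹, by rw [map_inv, mul_inv_cancel_right]⟩
  intro n hn
  rw [dev_mul P φ hfix hn]
  have e2 : (n⁻¹ * φ (ι (b ^ j)) n) ^ mm P = (n⁻¹ * b * n) * (b : G)⁻¹ := by
    rw [hι, MulAut.conj_apply]
    have hbP : ((b ^ j : (P : Subgroup G)) : G) ∈ (P : Subgroup G) := (b ^ j).2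
    have h3 : (((b ^ j : (P : Subgroup G)) : G)) ∈ centralizer (P : Set G) :=
      P.le_centralizer hbP
    have e3 : n⁻¹ * (((b ^ j : (P : Subgroup G)) : G) * n * ((b ^ j : (P : Subgroup G)) : G)⁻¹) =
        (n⁻¹ * ((b ^ j : (P : Subgroup G)) : G) * n) * ((b ^ j : (P : Subgroup G)) : G)⁻¹ := by
      group
    rw [e3, mul_pow_mm P (hcP h3 ⟨n, hn⟩) (inv_mem h3), inv_pow]
    have e4 : (((b ^ j : (P : Subgroup G)) : G)) ^ mm P = b := by
      rw [← SubgroupClass.coe_pow, hbj]
    have := conj_pow (i := mm P) (a := n⁻¹) (b := ((b ^ j : (P : Subgroup G)) : G))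
    rw [inv_inv] at this
    rw [this, e4]
  rw [e2]
  have e5 := congrArg Subtype.val (hb ⟨n, hn⟩)
  have e6 : ((b * (act ⟨n, hn⟩ b)⁻¹ : (P : Subgroup G)) : G) = b * (n⁻¹ * b * n)⁻¹ := rfl
  rw [e6] at e5
  have e7 : ((f ⟨n, hn⟩ : (P : Subgroup G)) : G) = (n⁻¹ * φ s n) ^ mm P := rfl
  rw [← e7, e5]
  group

end

end Pool.Agent.H80.AutAb
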