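import Pool.Agent.H80.AutAb.Loc

/-! The bound for groups of automorphisms centralising an abelian Sylow subgroup. -/

set_option autoImplicit false
set_option linter.unusedVariables false

namespace Pool.Agent.H80.AutAb

open Subgroup
open scoped Pointwise IsMulCommutative

section

variable {G S : Type*} [Group G] [Finite G] [Group S] [Finite S] {p : ℕ} [hp : Fact p.Prime]
  (P : Sylow p G) (φ : S →* MulAut G)

/-- elements of `S` fixing `R` pointwise -/
def WW (R : Subgroup G) : Subgroup S where
  carrier := {s | ∀ x ∈ R, φ s x = x}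
  mul_mem' := fun {a b} ha hb x hx => by
    rw [map_mul, MulAut.mul_apply, hb x hx, ha x hx]
  one_mem' := fun x hx => by rw [map_one, MulAut.one_apply]
  inv_mem' := fun {a} ha x hx => by
    have h1 : φ a⁻¹ (φ a x) = x := by
      rw [← MulAut.mul_apply, ← map_mul, inv_mul_cancel, map_one, MulAut.one_apply]
    rwa [ha x hx] at h1

/-- fixed points of a subgroup of `S` -/
def HH (W : Subgroup S) : Subgroup G where
  carrier := {x | ∀ s ∈ W, φ s x = x}
  mul_mem' := fun {a b} ha hb s hs => by rw [map_mul, ha s hs, hb s hs]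
  one_mem' := fun s hs => map_one _
  inv_mem' := fun {a} ha s hs => by rw [map_inv, ha s hs]

variable [hPc : IsMulCommutative (P : Subgroup G)]
  (ι : (P : Subgroup G) →* S) (hι : ∀ a, φ (ι a) = MulAut.conj (a : G))

include hι in
theorem local_bound (hφ : Function.Injective φ) (hS : IsPGroup p S)
    (hfix : ∀ s, ∀ x ∈ (P : Subgroup G), φ s x = x) {r : ℕ} [hr : Fact r.Prime] (hpr : r ≠ p) :
    ∃ R : Sylow r G, (DD P φ hfix ⊓ WW φ (R : Subgroup G)).relIndex (DD P φ hfix) ∣
      Nat.card (MulAut (R : Subgroup G)) := by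
  classical
  obtain ⟨R, hR1, hR2⟩ := choose_sylow (r := r) P hS φ ι hι
  refine ⟨R, ?_⟩
  have hcen := iota_central P φ ι hι hφ hfix
  -- the stabilizer
  let T : Subgroup S :=
    { carrier := {s | φ s • R = R}
      mul_mem' := fun {a b} ha hb => by
        change φ (a * b) • R = R
        rw [map_mul, mul_smul, (show φ b • R = R from hb)]
        exact ha
      one_mem' := by
        change φ 1 • R = R
        rw [map_one, one_smul]
      inv_mem' := fun {a} ha => by
        change φ a⁻¹ • R = R
        rw [map_inv, inv_smul_eq_iff]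
        exact (show φ a • R = R from ha).symm }
  have hT : ∀ c, ∃ t ∈ T, ∃ a, c = t * ι a := by
    intro c
    obtain ⟨a, ha⟩ := hR1 c
    refine ⟨c * (ι a)⁻¹, ?_, a, by rw [inv_mul_cancel_right]⟩
    change φ (c * (ι a)⁻¹) • R = R
    have e : c * (ι a)⁻¹ = (ι a)⁻¹ * c := by
      rw [eq_inv_mul_iff_mul_eq, ← mul_assoc, hcen, mul_inv_cancel_right]
    rw [e, map_mul, map_inv, mul_smul, ha, inv_smul_smul]
  let V : Subgroup (P : Subgroup G) :=
    { carrier := {a | ∀ h ∈ normalizer (P : Set G), h ∈ HH φ (WW φ (R : Subgroup G)) →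
        (a : G) * h = h * a}
      mul_mem' := fun {a b} ha hb h hh hh2 => by
        have h1 := ha h hh hh2
        have h2 := hb h hh hh2
        rw [Subgroup.coe_mul, mul_assoc, h2, ← mul_assoc, h1, mul_assoc]
      one_mem' := fun h hh hh2 => by simp
      inv_mem' := fun {a} ha h hh hh2 => by
        have h1 := ha h hh hh2
        rw [InvMemClass.coe_inv, inv_mul_eq_iff_eq_mul, ← mul_assoc, h1, mul_inv_cancel_right] }
  have hV : ∀ a, (∃ w ∈ WW φ (R : Subgroup G), w * ι a ∈ DD P φ hfix) → a ∈ V := by
    rintro a ⟨w, hw, hwa⟩ h hh hh2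
    have h1 := hwa h hh
    rw [dev_mul P φ hfix hh, hh2 w hw, inv_mul_cancel, one_pow, one_mul, hι,
      MulAut.conj_apply] at h1
    have h2 : h⁻¹ * ((a : G) * h * (a : G)⁻¹) ∈ (P : Subgroup G) := by
      have e : h⁻¹ * ((a : G) * h * (a : G)⁻¹) = (h⁻¹ * a * h) * (a : G)⁻¹ := by group
      rw [e]
      exact mul_mem ((mem_normalizer_iff''.1 hh a).1 a.2) (inv_mem a.2)
    obtain ⟨j, hj⟩ := exists_pow_eq (A := (P : Subgroup G)) (coprime_mm P)
    have h3 : (⟨_, h2⟩ : (P : Subgroup G)) = 1 := by
      rw [← hj ⟨_, h2⟩, pow_mul]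
      have h4 : (⟨_, h2⟩ : (P : Subgroup G)) ^ mm P = 1 := Subtype.ext h1
      rw [h4, one_pow]
    have h5 : h⁻¹ * ((a : G) * h * (a : G)⁻¹) = 1 := congrArg Subtype.val h3
    have h6 : (a : G) * h * (a : G)⁻¹ = h := by
      rw [inv_mul_eq_one] at h5; exact h5.symm
    calc (a : G) * h = (a : G) * h * (a : G)⁻¹ * a := by group
      _ = h * a := by rw [h6]
  -- the transfer bound
  have hVT : Nat.card V ≤ Nat.card (T.comap ι) := by
    have hTc : T.comap ι = (normalizer (R : Set G)).subgroupOf P := by
      ext a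
      rw [Subgroup.mem_comap, mem_subgroupOf, ← Sylow.smul_eq_iff_mem_normalizer, Sylow.smul_def,
        ← hι]
      rfl
    rw [hTc, ← hR2]
    -- work in the group of fixed points
    let H : Subgroup G := HH φ (WW φ (R : Subgroup G))
    have hPH : (P : Subgroup G) ≤ H := fun x hx s _ => hfix s x hx
    have hRH : (R : Subgroup G) ≤ H := fun x hx s hs => hs x hx
    have hPHc : IsMulCommutative ((P.subtype hPH : Sylow p H) : Subgroup H) := by
      refine ⟨⟨fun a b => ?_⟩⟩
      apply Subtype.ext
      apply Subtype.ext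
      have := congrArg (fun z : (P : Subgroup G) => (z : G))
        (mul_comm (⟨a.1.1, a.2⟩ : (P : Subgroup G)) ⟨b.1.1, b.2⟩)
      exact this
    have h1 := transfer_bound (H := H) hpr (P.subtype hPH) (R.subtype hRH)
      ((V.map (P : Subgroup G).subtype).subgroupOf H) (by
        intro x hx
        obtain ⟨a, _, ha⟩ := hx
        change (x : G) ∈ (P : Subgroup G)
        rw [← show (a : G) = x from ha]
        exact a.2) (by
        intro x hx n hn
        obtain ⟨a, haV, ha⟩ := hx
        have hn' : (n : G) ∈ normalizer (P : Set G) := by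
          have hn3 := mem_normalizer_iff.1 hn
          refine mem_normalizer_iff.2 fun y => ?_
          constructor
          · intro hy
            exact (hn3 ⟨y, hPH hy⟩).1 hy
          · intro hy
            have hyH : (n : G) * y * (n : G)⁻¹ ∈ H := hPH hy
            have hyH2 : y ∈ H := by
              have := H.mul_mem (H.mul_mem (H.inv_mem n.2) hyH) n.2
              have e : (n : G)⁻¹ * ((n : G) * y * (n : G)⁻¹) * n = y := by group
              rwa [e] at this
            exact (hn3 ⟨y, hyH2⟩).2 hy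
        have h2 := haV n hn' n.2
        rw [show (a : G) = x from ha] at h2
        apply Subtype.ext
        change (n : G)⁻¹ * x * n = x
        rw [mul_assoc, h2, inv_mul_cancel_left])
    have hcardV : Nat.card ((V.map (P : Subgroup G).subtype).subgroupOf H) = Nat.card V := by
      have h3 : V.map (P : Subgroup G).subtype ≤ H := by
        rintro _ ⟨a, _, rfl⟩
        exact hPH a.2
      rw [Nat.card_congr (subgroupOfEquivOfLe h3).toEquiv]
      exact (Nat.card_congr
        (equivMapOfInjective V _ (P : Subgroup G).subtype_injective).toEquiv).symm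
    rw [hcardV] at h1
    -- the normalizer in `H` is smaller
    have h4 : Nat.card (normalizer ((R.subtype hRH : Sylow r H) : Set H)) ∣
        Nat.card (normalizer (R : Set G)) := by
      rw [Nat.card_congr (equivMapOfInjective _ _ H.subtype_injective).toEquiv]
      apply Subgroup.card_dvd_of_le
      rintro _ ⟨n, hn, rfl⟩
      change (n : G) ∈ normalizer (R : Set G)
      have hn2 := mem_normalizer_iff.1 hn
      refine mem_normalizer_iff.2 fun y => ?_
      constructor
      · intro hy
        exact (hn2 ⟨y, hRH hy⟩).1 hy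
      · intro hy
        have hyH : (n : G) * y * (n : G)⁻¹ ∈ H := hRH hy
        have hyH2 : y ∈ H := by
          have := H.mul_mem (H.mul_mem (H.inv_mem n.2) hyH) n.2
          have e : (n : G)⁻¹ * ((n : G) * y * (n : G)⁻¹) * n = y := by group
          rwa [e] at this
        exact (hn2 ⟨y, hyH2⟩).2 hy
    have h5 := h1.trans h4
    obtain ⟨k, hk⟩ := (IsPGroup.iff_card).1 (P.isPGroup'.to_subgroup V)
    rw [hk] at h5 ⊢
    apply Nat.pow_le_pow_right hp.out.pos
    exact (hp.out.pow_dvd_iff_le_factorization Nat.card_pos.ne').1 h5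
  have hmain := index_bound ι hcen (DD P φ hfix) T (WW φ (R : Subgroup G)) hT
    (DD_cover P φ ι hι hfix) V hV hVT
  -- the quotient `T / W` acts faithfully on `R`
  have hWT : WW φ (R : Subgroup G) ≤ T := by
    intro s hs
    change φ s • R = R
    apply Sylow.ext
    rw [Sylow.pointwise_smul_def]
    ext x
    constructor
    · intro hx
      obtain ⟨y, hy, rfl⟩ := hx
      have : φ s y = y := hs y hy
      change φ s y ∈ _
      rw [this]; exact hy
    · intro hx
      exact ⟨x, hx, hs x hx⟩
  have hres : ∀ t : T, ∀ x ∈ (R : Subgroup G), (φ.comp T.subtype) t x ∈ (R : Subgroup G) := by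
    intro t x hx
    have h1 : φ t • R = R := t.2
    have h2 : φ t • (R : Subgroup G) = R := congrArg (fun Q : Sylow r G => (Q : Subgroup G)) h1
    rw [← h2]
    exact Subgroup.smul_mem_pointwise_smul x (φ t) _ hx
  let ρ : T →* MulAut (R : Subgroup G) := Pool.Agent.H14.resHom (φ.comp T.subtype) R hres
  have hker : ρ.ker = (WW φ (R : Subgroup G)).subgroupOf T := by
    ext t
    rw [MonoidHom.mem_ker, mem_subgroupOf]
    constructor
    · intro h x hx
      have := congrArg (fun f : MulAut (R : Subgroup G) => ((f ⟨x, hx⟩ : (R : Subgroup G)) : G)) h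
      exact this
    · intro h
      ext x
      exact h x x.2
  have hTW : (WW φ (R : Subgroup G)).relIndex T ∣ Nat.card (MulAut (R : Subgroup G)) := by
    change ((WW φ (R : Subgroup G)).subgroupOf T).index ∣ _
    rw [← hker, index_ker]
    exact Subgroup.card_subgroup_dvd_card _
  have hTWc : Nat.card (WW φ (R : Subgroup G)) * (WW φ (R : Subgroup G)).relIndex T =
      Nat.card T := by
    have := relIndex_mul_relIndex (⊥ : Subgroup S) (WW φ (R : Subgroup G)) T bot_le hWT
    rwa [relIndex_bot_left, relIndex_bot_left] at this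
  have hDWc : Nat.card (DD P φ hfix ⊓ WW φ (R : Subgroup G) : Subgroup S) *
      (DD P φ hfix ⊓ WW φ (R : Subgroup G)).relIndex (DD P φ hfix) = Nat.card (DD P φ hfix) := by
    have := relIndex_mul_relIndex (⊥ : Subgroup S) (DD P φ hfix ⊓ WW φ (R : Subgroup G))
      (DD P φ hfix) bot_le inf_le_left
    rwa [relIndex_bot_left, relIndex_bot_left] at this
  have hle : (DD P φ hfix ⊓ WW φ (R : Subgroup G)).relIndex (DD P φ hfix) ≤
      (WW φ (R : Subgroup G)).relIndex T := by
    rw [← hTWc, ← hDWc] at hmain
    have hW0 : 0 < Nat.card (WW φ (R : Subgroup G)) := Nat.card_pos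
    have hI0 : 0 < Nat.card (DD P φ hfix ⊓ WW φ (R : Subgroup G) : Subgroup S) := Nat.card_pos
    apply Nat.le_of_mul_le_mul_left _ (Nat.mul_pos hW0 hI0)
    calc _ = Nat.card (DD P φ hfix ⊓ WW φ (R : Subgroup G) : Subgroup S) *
        (DD P φ hfix ⊓ WW φ (R : Subgroup G)).relIndex (DD P φ hfix) *
        Nat.card (WW φ (R : Subgroup G)) := by ring
      _ ≤ _ := hmain
      _ = _ := by ring
  -- both are powers of `p`
  obtain ⟨i, hi⟩ : ∃ i, (WW φ (R : Subgroup G)).relIndex T = p ^ i :=
    (hS.to_subgroup T).index ((WW φ (R : Subgroup G)).subgroupOf T)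
  obtain ⟨k, hk⟩ : ∃ k, (DD P φ hfix ⊓ WW φ (R : Subgroup G)).relIndex (DD P φ hfix) = p ^ k :=
    (hS.to_subgroup _).index ((DD P φ hfix ⊓ WW φ (R : Subgroup G)).subgroupOf (DD P φ hfix))
  refine dvd_trans ?_ hTW
  rw [hi, hk] at hle ⊢
  exact pow_dvd_pow p ((Nat.pow_le_pow_iff_right hp.out.one_lt).1 hle)

end

end Pool.Agent.H80.AutAb
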